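import Pool.Agent.Helper62.IX.Stm
import Pool.Agent.Helper93.GX.HR

/-! # Project IX: the Hasse-Witt functionals on the kernel of the residue at infinity -/

set_option autoImplicit false

open Polynomial Matrix Finset

namespace Pool.Agent.Helper41.IX

open Pool.Agent.Helper62.BM Pool.Agent.Helper62.BW Pool.Agent.Helper62.BX Pool.Agent.Helper62.CX
open Pool.Agent.Helper62.GX Pool.Agent.Helper62.HX Pool.Agent.Helper62.JX
open Pool.Agent.Helper62.IX

theorem refl_pow {R : Type} [CommRing R] (f : R[X]) {N : ℕ} (hf : f.natDegree ≤ N) (k : ℕ) :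
    reflect (N * k) (f ^ k) = reflect N f ^ k := by
  induction k with
  | zero =>
    rw [mul_zero, pow_zero, pow_zero]
    ext i
    rw [coeff_reflect]
    rcases Nat.eq_zero_or_pos i with h | h
    · subst h
      simp
    · rw [revAt_eq_self_of_lt h]
  | succ k ih =>
    rw [pow_succ, pow_succ, Nat.mul_succ, ← ih]
    refine reflect_mul _ _ ?_ hf
    refine natDegree_pow_le.trans ?_
    rw [mul_comm N k]
    exact Nat.mul_le_mul_left _ hf

theorem refl_prod {R ι : Type} [CommRing R] [DecidableEq ι] (f : ι → R[X]) (N : ι → ℕ)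
    (hf : ∀ l, (f l).natDegree ≤ N l) (S : Finset ι) :
    reflect (∑ l ∈ S, N l) (∏ l ∈ S, f l) = ∏ l ∈ S, reflect (N l) (f l) := by
  induction S using Finset.induction_on with
  | empty =>
    rw [Finset.sum_empty, Finset.prod_empty, Finset.prod_empty]
    ext i
    rw [coeff_reflect]
    rcases Nat.eq_zero_or_pos i with h | h
    · subst h
      simp
    · rw [revAt_eq_self_of_lt h]
  | insert a S ha ih =>
    rw [Finset.sum_insert ha, Finset.prod_insert ha, Finset.prod_insert ha, ← ih]
    refine reflect_mul _ _ (hf a) ?_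
    exact (natDegree_prod_le _ _).trans (Finset.sum_le_sum fun l _ => hf l)

theorem i_HWrank : I_HWrank := by
  intro ι _ _ F _ p _ _ m n ρ nd c hmp hρm hmc hnd hnp a ha hsep T hT v hv
  have hp : p.Prime := Fact.out
  obtain ⟨k, hk⟩ := hmp
  have hne : Nonempty ι := by
    by_contra hcon
    rw [not_nonempty_iff] at hcon
    rw [Finset.univ_eq_empty, Finset.sum_empty] at hnd
    omega
  obtain ⟨l0⟩ := hne
  have hm0 : 0 < m := lt_of_lt_of_le (hρm l0).1 (hρm l0).2.le
  have hdiv : (p - 1) / m = k := by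
    rw [hk]
    exact Nat.mul_div_cancel_left k hm0
  have hpk : p = m * k + 1 := by
    have := hp.two_le
    omega
  rw [hdiv] at hv
  have hcn : (c : ℕ) < n + 1 := c.2
  set Q : F[X] := ∏ j, a j ^ (ρ j * k) with hQ
  set D : ℕ := (p - 1) * ((c : ℕ) + 1) with hD
  have hDe : D + ((c : ℕ) + 1) = p * ((c : ℕ) + 1) := by
    rw [hD]
    have h1 : p = (p - 1) + 1 := by omega
    conv_rhs => rw [h1]
    ring
  have hDs : ∑ l, nd l * (ρ l * k) = D := by
    rw [hD, hk, mul_comm m k, mul_assoc, hmc, Finset.mul_sum]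
    exact Finset.sum_congr rfl fun l _ => by ring
  have hQd : Q.natDegree ≤ D := by
    rw [hQ, ← hDs]
    refine (natDegree_prod_le _ _).trans (Finset.sum_le_sum fun l _ => ?_)
    refine natDegree_pow_le.trans (le_of_eq ?_)
    rw [(ha l).2]
    ring
  -- the reflected product
  have hQr : reflect D Q = ∏ l, reflect (nd l) (a l) ^ (ρ l * k) := by
    rw [hQ, ← hDs, refl_prod (fun l => a l ^ (ρ l * k)) (fun l => nd l * (ρ l * k)) (fun l => by
      refine natDegree_pow_le.trans (le_of_eq ?_)
      rw [(ha l).2]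
      ring)]
    exact Finset.prod_congr rfl fun l _ => refl_pow _ (ha l).2.le _
  have hTQ : X ^ (n + 2) ∣ reflect D Q - T := by
    obtain ⟨hT0, hT1⟩ := hT
    have h1 : X ^ (n + 2) ∣ (T ^ m * ∏ l, reflect (nd l) (a l) ^ ρ l) ^ k - 1 := by
      refine hT1.trans ?_
      have := sub_dvd_pow_sub_pow (T ^ m * ∏ l, reflect (nd l) (a l) ^ ρ l) 1 k
      rwa [one_pow] at this
    have h2 : (T ^ m * ∏ l, reflect (nd l) (a l) ^ ρ l) ^ k = T ^ (m * k) * reflect D Q := by
      rw [hQr, mul_pow, ← pow_mul, ← Finset.prod_pow]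
      congr 1
      exact Finset.prod_congr rfl fun l _ => (pow_mul _ _ _).symm
    rw [h2] at h1
    have h3 : X ^ (n + 2) ∣ T ^ p - 1 := by
      have h4 : X ∣ T - 1 := by
        rw [X_dvd_iff, coeff_sub, hT0, coeff_one_zero, sub_self]
      have h5 : (T - 1) ^ p = T ^ p - 1 := by
        rw [sub_pow_char, one_pow]
      rw [← h5]
      exact (pow_dvd_pow X (by omega)).trans (pow_dvd_pow_of_dvd h4 p)
    have h6 : reflect D Q - T = T * (T ^ (m * k) * reflect D Q - 1) -
        reflect D Q * (T ^ p - 1) := by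
      rw [hpk]
      ring
    rw [h6]
    exact dvd_sub (h1.mul_left T) (h3.mul_left _)
  have hrow : ∀ l : ℕ, l < n + 1 → (X ^ l * Q).coeff (p * ((c : ℕ) + 1) - 1) = res c T l := by
    intro l hl
    have hpc : n + 2 ≤ p * ((c : ℕ) + 1) := by nlinarith
    rw [coeff_X_pow_mul', if_pos (by omega)]
    unfold res
    split_ifs with h
    · exact coeff_eq_zero_of_natDegree_lt (by omega)
    · have h1 : (reflect D Q).coeff (l - c) = T.coeff (l - c) := by
        have h2 := X_pow_dvd_iff.1 hTQ (l - c) (by omega)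
        rw [coeff_sub, sub_eq_zero] at h2
        exact h2
      rw [← h1, coeff_reflect, revAt_le (by omega)]
      congr 1
      omega
  -- the combination
  set P0 : F[X] := ∑ i : Fin (c : ℕ), monomial (p * ((c : ℕ) - (i : ℕ))) (v i) with hP0
  have hYG : ∀ l : Fin (n + 1), (X ^ (l : ℕ) * (Q * P0)).coeff (p * ((c : ℕ) + 1) - 1) =
      ∑ i, v i * YG p (fun j => ρ j * k) c (n + 1) a i l := by
    intro l
    rw [hP0, Finset.mul_sum, Finset.mul_sum, finsetSum_coeff]
    refine Finset.sum_congr rfl fun i _ => ?_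
    have h2 : X ^ (l : ℕ) * (Q * monomial (p * ((c : ℕ) - (i : ℕ))) (v i)) =
        C (v i) * (X ^ (p * ((c : ℕ) - (i : ℕ))) * (X ^ (l : ℕ) * Q)) := by
      rw [← C_mul_X_pow_eq_monomial]
      ring
    rw [h2, coeff_C_mul, coeff_X_pow_mul']
    have hi := i.2
    have h3 : p * ((c : ℕ) - (i : ℕ)) + p * ((i : ℕ) + 1) = p * ((c : ℕ) + 1) := by
      rw [← mul_add]
      congr 1
      omega
    have h4 : 0 < p * ((i : ℕ) + 1) := Nat.mul_pos hp.pos (Nat.succ_pos _)
    rw [if_pos (by omega)]
    simp only [YG, Matrix.of_apply]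
    congr 2
    omega
  set κ : F := (X ^ (c : ℕ) * (Q * P0)).coeff (p * ((c : ℕ) + 1) - 1) with hκ
  have hker : ∀ l : Fin (n + 1), (X ^ (l : ℕ) * (Q * P0)).coeff (p * ((c : ℕ) + 1) - 1) =
      res c T l * κ := by
    intro l
    by_cases hl : l = c
    · have h1 : res (c : ℕ) T (l : ℕ) = 1 := by
        rw [hl]
        unfold res
        rw [if_neg (lt_irrefl _), Nat.sub_self]
        exact hT.1
      rw [h1, one_mul, hκ, hl]
    · obtain ⟨j, hj⟩ := Fin.exists_succAbove_eq hl
      have h1 := congrFun hv j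
      rw [Matrix.vecMul, dotProduct] at h1
      simp only [YI, Matrix.of_apply, Pi.zero_apply, mul_sub, Finset.sum_sub_distrib] at h1
      rw [hj] at h1
      rw [hYG l, hκ, hYG c, Finset.mul_sum]
      rw [sub_eq_zero] at h1
      rw [h1]
      exact Finset.sum_congr rfl fun i _ => by ring
  set P : F[X] := P0 - C κ with hP
  have hP' : derivative P = 0 := by
    rw [hP, derivative_sub, derivative_C, sub_zero, hP0, derivative_sum]
    refine Finset.sum_eq_zero fun i _ => ?_
    rw [derivative_monomial]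
    have : ((p * ((c : ℕ) - (i : ℕ)) : ℕ) : F) = 0 :=
      (CharP.cast_eq_zero_iff F p _).mpr (dvd_mul_right _ _)
    rw [this, mul_zero, monomial_zero_right]
  have hPd : P.natDegree + p ≤ p * ((c : ℕ) + 1) := by
    have h1 : P.natDegree ≤ p * c := by
      rw [hP]
      refine (natDegree_sub_le _ _).trans (max_le ?_ ?_)
      · rw [hP0]
        refine natDegree_sum_le_of_forall_le _ _ fun i _ => ?_
        refine (natDegree_monomial_le _).trans ?_
        exact Nat.mul_le_mul_left p (by omega)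
      · rw [natDegree_C]
        exact Nat.zero_le _
    have h2 : p * ((c : ℕ) + 1) = p * c + p := by ring
    omega
  have hΛ : ∀ l < n + 1, (X ^ l * (Q * P)).coeff (p * ((c : ℕ) + 1) - 1) = 0 := by
    intro l hl
    have e : X ^ l * (Q * P) = X ^ l * (Q * P0) - C κ * (X ^ l * Q) := by
      rw [hP]
      ring
    rw [e, coeff_sub, coeff_C_mul, hrow l hl, hker ⟨l, hl⟩]
    ring
  have hPz : P = 0 := Pool.Agent.Helper93.GX.core p m k (n + 1) ((c : ℕ) + 1) 0 ρ nd hpk hρm
    (Nat.succ_pos _) (by rw [add_zero]; exact hmc.symm) (by omega) a (fun l => (ha l).2) hsep P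
    hP' hPd hΛ
  funext i
  have h1 : P.coeff (p * ((c : ℕ) - (i : ℕ))) = v i := by
    have hi := i.2
    have h0 : 0 < p * ((c : ℕ) - (i : ℕ)) := Nat.mul_pos hp.pos (by omega)
    rw [hP, coeff_sub, coeff_C, if_neg (by omega), sub_zero, hP0, finsetSum_coeff,
      Finset.sum_eq_single i]
    · rw [coeff_monomial, if_pos rfl]
    · intro b _ hb
      rw [coeff_monomial, if_neg]
      intro h
      apply hb
      have h5 := Nat.eq_of_mul_eq_mul_left hp.pos h
      have hb2 := b.2
      ext
      omega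
    · intro h
      exact absurd (Finset.mem_univ i) h
  rw [← h1, hPz, coeff_zero]
  rfl

end Pool.Agent.Helper41.IX
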